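import Pool.Agent.WittR.Elem
import Pool.Agent.Hhelper2.LocalFactor

/-!
# Values of forms over a quaternionic structure, universal forms, the u-invariant
-/

namespace Pool.Agent.UInv

open Pool.Agent.Hhelper2 Pool.Agent.WittR

universe u v w

section defs

variable (S : QStr.{u})

/-- The class `x` is represented by the binary form `⟨a, b⟩`. -/
def Rep (a b x : S.G) : Prop := S.Split (S.neg * (a * b)) (a * x)

/-- The class `x` is represented by the form with the entries in the list. -/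
def D : List S.G → S.G → Prop
  | [], _ => False
  | a :: l, x => (l = [] ∧ x = a) ∨ ∃ y, D l y ∧ Rep S a y x

/-- All forms of dimension `n` are universal. -/
def U (n : ℕ) : Prop := ∀ l : List S.G, l.length = n → ∀ x, D S l x

/-- All forms of dimension `n` are universal, and `n` is the least such number. -/
def IsU (n : ℕ) : Prop := U S n ∧ ∀ m, m < n → ¬ U S m

end defs

variable {S : QStr.{u}} {T : QStr.{v}}

theorem neg_sq (hS : LAx S) (a : S.G) : S.neg * (S.neg * a) = a := by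
  rw [← mul_assoc, hS.sq, one_mul]

theorem mul_sq (hS : LAx S) (a b : S.G) : a * (a * b) = b := by
  rw [← mul_assoc, hS.sq, one_mul]

theorem one_split (hS : LAx S) (a : S.G) : S.Split 1 a := hS.symm _ _ (hS.one a)

theorem rep_left (hS : LAx S) (a y : S.G) : Rep S a y a := by
  show S.Split _ (a * a)
  rw [hS.sq]
  exact hS.one _

theorem rep_right (hS : LAx S) (a y : S.G) : Rep S a y y := by
  show S.Split (S.neg * (a * y)) (a * y)
  have h := hS.neg (S.neg * (a * y))
  rwa [neg_sq hS] at h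

theorem rep_neg (hS : LAx S) (a x : S.G) : Rep S a (S.neg * a) x := by
  show S.Split (S.neg * (a * (S.neg * a))) (a * x)
  have h : S.neg * (a * (S.neg * a)) = 1 := by
    rw [mul_left_comm a S.neg a, neg_sq hS, hS.sq]
  rw [h]
  exact one_split hS _

theorem D_nonempty (hS : LAx S) : ∀ l : List S.G, l ≠ [] → ∃ x, D S l x
  | [], h => absurd rfl h
  | a :: l, _ => by
    by_cases hl : l = []
    · exact ⟨a, Or.inl ⟨hl, rfl⟩⟩
    · obtain ⟨y, hy⟩ := D_nonempty hS l hl
      exact ⟨a, Or.inr ⟨y, hy, rep_left hS a y⟩⟩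

theorem D_head (hS : LAx S) (a : S.G) (l : List S.G) : D S (a :: l) a := by
  by_cases hl : l = []
  · exact Or.inl ⟨hl, rfl⟩
  · obtain ⟨y, hy⟩ := D_nonempty hS l hl
    exact Or.inr ⟨y, hy, rep_left hS a y⟩

theorem D_tail (hS : LAx S) (a : S.G) {l : List S.G} {x : S.G} (h : D S l x) : D S (a :: l) x :=
  Or.inr ⟨x, h, rep_right hS a x⟩

/-- A form which is isotropic (in the naive sense) is universal. -/
theorem D_of_neg (hS : LAx S) {a : S.G} {l : List S.G} (h : D S l (S.neg * a)) (x : S.G) :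
    D S (a :: l) x :=
  Or.inr ⟨S.neg * a, h, rep_neg hS a x⟩

theorem univ_cons (hS : LAx S) (a : S.G) {l : List S.G} (h : ∀ x, D S l x) (x : S.G) :
    D S (a :: l) x := D_of_neg hS (h _) x

theorem U_succ (hS : LAx S) {n : ℕ} (h : U S n) : U S (n + 1) := by
  intro l hl x
  match l, hl with
  | a :: l, hl => exact univ_cons hS a (h l (by simpa using hl)) x

theorem U_mono (hS : LAx S) {m n : ℕ} (hmn : m ≤ n) (h : U S m) : U S n := by
  induction hmn with
  | refl => exact h
  | step _ ih => exact U_succ hS ih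

theorem not_U_zero : ¬ U S 0 := fun h => h [] rfl 1

/-! ### Isomorphisms -/

theorem rep_iso (f : S.Iso T) (a b x : S.G) : Rep S a b x ↔ Rep T (f.e a) (f.e b) (f.e x) := by
  unfold Rep
  rw [f.map_split, map_mul, map_mul, map_mul, f.map_neg]

theorem D_iso (f : S.Iso T) : ∀ (l : List S.G) (x : S.G), D S l x ↔ D T (l.map f.e) (f.e x)
  | [], x => Iff.rfl
  | a :: l, x => by
    rw [List.map_cons]
    constructor
    · rintro (⟨h1, h2⟩ | ⟨y, h1, h2⟩)
      · exact Or.inl ⟨by rw [h1]; rfl, by rw [h2]⟩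
      · exact Or.inr ⟨f.e y, (D_iso f l y).1 h1, (rep_iso f _ _ _).1 h2⟩
    · rintro (⟨h1, h2⟩ | ⟨y, h1, h2⟩)
      · exact Or.inl ⟨List.map_eq_nil_iff.1 h1, f.e.injective h2⟩
      · obtain ⟨y, rfl⟩ := f.e.surjective y
        exact Or.inr ⟨y, (D_iso f l y).2 h1, (rep_iso f _ _ _).2 h2⟩

theorem U_iso (f : S.Iso T) {n : ℕ} (h : U T n) : U S n := by
  intro l hl x
  exact (D_iso f l x).2 (h _ (by rw [List.length_map, hl]) _)

theorem U_iso_iff (f : S.Iso T) (n : ℕ) : U S n ↔ U T n := ⟨U_iso f.symm, U_iso f⟩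

/-! ### Products -/

/-- first component -/
def p1 (S : QStr.{u}) (T : QStr.{v}) (x : (S.prod T).G) : S.G := x.1

/-- second component -/
def p2 (S : QStr.{u}) (T : QStr.{v}) (x : (S.prod T).G) : T.G := x.2

theorem D_prod : ∀ (l : List (S.prod T).G) (x : (S.prod T).G),
    D (S.prod T) l x ↔ D S (l.map (p1 S T)) (p1 S T x) ∧ D T (l.map (p2 S T)) (p2 S T x)
  | [], x => ⟨fun h => h.elim, fun h => h.1.elim⟩
  | a :: l, x => by
    rw [List.map_cons, List.map_cons]
    constructor
    · rintro (⟨h1, h2⟩ | ⟨y, h1, h2⟩)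
      · subst h1
        subst h2
        exact ⟨Or.inl ⟨rfl, rfl⟩, Or.inl ⟨rfl, rfl⟩⟩
      · have h3 := (D_prod l y).1 h1
        exact ⟨Or.inr ⟨p1 S T y, h3.1, h2.1⟩, Or.inr ⟨p2 S T y, h3.2, h2.2⟩⟩
    · rintro ⟨⟨h1, h2⟩ | ⟨y, h1, h2⟩, h3⟩
      · rcases h3 with ⟨h4, h5⟩ | ⟨z, h4, h5⟩
        · exact Or.inl ⟨List.map_eq_nil_iff.1 h1, Prod.ext h2 h5⟩
        · rw [List.map_eq_nil_iff.1 h1] at h4
          exact h4.elim
      · rcases h3 with ⟨h4, h5⟩ | ⟨z, h4, h5⟩
        · rw [List.map_eq_nil_iff.1 h4] at h1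
          exact h1.elim
        · exact Or.inr ⟨(y, z), (D_prod l (y, z)).2 ⟨h1, h4⟩, ⟨h2, h5⟩⟩

theorem U_prod (n : ℕ) : U (S.prod T) n ↔ U S n ∧ U T n := by
  constructor
  · intro h
    constructor
    · intro l hl x
      let g : S.G → (S.prod T).G := fun a => (a, (1 : T.G))
      have h2 := ((D_prod (l.map g) (g x)).1 (h _ (by rw [List.length_map, hl]) _)).1
      rw [List.map_map] at h2
      have h3 : (p1 S T ∘ g) = id := rfl
      rw [h3, List.map_id] at h2
      exact h2
    · intro l hl x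
      let g : T.G → (S.prod T).G := fun a => ((1 : S.G), a)
      have h2 := ((D_prod (l.map g) (g x)).1 (h _ (by rw [List.length_map, hl]) _)).2
      rw [List.map_map] at h2
      have h3 : (p2 S T ∘ g) = id := rfl
      rw [h3, List.map_id] at h2
      exact h2
  · rintro ⟨h1, h2⟩ l hl x
    exact (D_prod l x).2 ⟨h1 _ ((List.length_map _).trans hl) _,
      h2 _ ((List.length_map _).trans hl) _⟩

/-! ### The class of structures -/

/-- The u-invariant of the structure is a power of two or infinite. -/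
def Good (S : QStr.{u}) : Prop := LAx S ∧ ((∃ k, IsU S (2 ^ k)) ∨ ∀ n, ¬ U S n)

theorem good_iso (f : S.Iso T) (h : Good T) : Good S := by
  refine ⟨lax_iso f h.1, ?_⟩
  rcases h.2 with ⟨k, h1, h2⟩ | h1
  · exact Or.inl ⟨k, U_iso f h1, fun m hm h3 => h2 m hm (U_iso f.symm h3)⟩
  · exact Or.inr fun n h3 => h1 n (U_iso f.symm h3)

theorem good_prod (hS : Good S) (hT : Good T) : Good (S.prod T) := by
  refine ⟨lax_prod hS.1 hT.1, ?_⟩
  rcases hS.2 with ⟨j, h1, h2⟩ | h1
  · rcases hT.2 with ⟨k, h3, h4⟩ | h3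
    · left
      rcases le_total j k with hjk | hjk
      · refine ⟨k, (U_prod _).2 ⟨U_mono hS.1 (Nat.pow_le_pow_right (by norm_num) hjk) h1, h3⟩, ?_⟩
        intro m hm h5
        exact h4 m hm ((U_prod _).1 h5).2
      · refine ⟨j, (U_prod _).2 ⟨h1, U_mono hT.1 (Nat.pow_le_pow_right (by norm_num) hjk) h3⟩, ?_⟩
        intro m hm h5
        exact h2 m hm ((U_prod _).1 h5).1
    · exact Or.inr fun n h5 => h3 n ((U_prod _).1 h5).2
  · exact Or.inr fun n h5 => h1 n ((U_prod _).1 h5).1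

end Pool.Agent.UInv
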