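import Pool.Agent.UInv.Abs

/-!
# The u-invariant of a group extension
-/

namespace Pool.Agent.UInv

open Pool.Agent.Hhelper2 Pool.Agent.WittR

universe u v w

variable {S : QStr.{u}}

/-- Some tail of the form represents the negative of the entry before it. -/
def Isot (S : QStr.{u}) : List S.G → Prop
  | [] => False
  | a :: l => D S l (S.neg * a) ∨ Isot S l

theorem univ_of_isot (hS : LAx S) : ∀ l : List S.G, Isot S l → ∀ x, D S l x
  | [], h, _ => h.elim
  | a :: l, h, x => by
    rcases h with h | h
    · exact D_of_neg hS h x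
    · exact univ_cons hS a (univ_of_isot hS l h) x

theorem isot_of_length (hS : LAx S) {n : ℕ} (h : U S n) {l : List S.G} (hl : n + 1 ≤ l.length) :
    Isot S l := by
  match l, hl with
  | a :: l, hl =>
    left
    exact U_mono hS (Nat.le_of_succ_le_succ (by simpa using hl)) h l rfl _

theorem C2_sq (i : Multiplicative (ZMod 2)) : i * i = 1 := by revert i; decide

theorem C2_mul {i j : Multiplicative (ZMod 2)} (hi : i ≠ 1) (hj : j ≠ 1) : i * j = 1 := by
  revert i j; decide

/-- the nontrivial element -/
def tt : Multiplicative (ZMod 2) := Multiplicative.ofAdd 1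

theorem tt_ne : tt ≠ 1 := by decide

theorem eq_tt {i : Multiplicative (ZMod 2)} (hi : i ≠ 1) : i = tt := by revert i; decide

/-- pairs -/
def mk (S : QStr.{u}) (i : Multiplicative (ZMod 2)) (a : S.G) : S.ext.G := (a, i)

/-- first component -/
def fs (x : S.ext.G) : S.G := x.1

/-- second component -/
def sn (x : S.ext.G) : Multiplicative (ZMod 2) := x.2

theorem mk_eta (x : S.ext.G) : mk S (sn x) (fs x) = x := rfl

theorem sn_mul (x y : S.ext.G) : sn (x * y) = sn x * sn y := rfl

theorem fs_mul (x y : S.ext.G) : fs (x * y) = fs x * fs y := rfl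

theorem ext_eq {x y : S.ext.G} (h1 : fs x = fs y) (h2 : sn x = sn y) : x = y := Prod.ext h1 h2

theorem sn_neg_mul (x : S.ext.G) : sn (S.ext.neg * x) = sn x := by
  rw [sn_mul]
  exact one_mul _

theorem fs_neg_mul (x : S.ext.G) : fs (S.ext.neg * x) = S.neg * fs x := rfl

theorem ext_split_iff (x y : S.ext.G) : S.ext.Split x y ↔
    (sn x = 1 ∧ sn y = 1 ∧ S.Split (fs x) (fs y)) ∨ x = 1 ∨ y = 1 ∨
    (sn x ≠ 1 ∧ sn y ≠ 1 ∧ fs y = S.neg * fs x) := Iff.rfl

theorem rep_mk {i : Multiplicative (ZMod 2)} {a y x : S.G} (h : Rep S a y x) :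
    Rep S.ext (mk S i a) (mk S i y) (mk S i x) := by
  show S.ext.Split _ _
  rw [ext_split_iff]
  left
  refine ⟨?_, ?_, h⟩
  · rw [sn_neg_mul, sn_mul]
    exact C2_sq i
  · rw [sn_mul]
    exact C2_sq i

/-- The entries of the given second component. -/
def comp (S : QStr.{u}) (i : Multiplicative (ZMod 2)) : List S.ext.G → List S.G
  | [] => []
  | a :: l => if sn a = i then fs a :: comp S i l else comp S i l

theorem length_comp : ∀ l : List S.ext.G, (comp S 1 l).length + (comp S tt l).length = l.length
  | [] => rfl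
  | a :: l => by
    have ih := length_comp l
    unfold comp
    by_cases h : sn a = 1
    · rw [if_pos h, if_neg (by rw [h]; exact tt_ne.symm), List.length_cons, List.length_cons]
      omega
    · rw [if_neg h, if_pos (eq_tt h), List.length_cons, List.length_cons]
      omega

theorem D_comp (hS : LAx S) (i : Multiplicative (ZMod 2)) : ∀ (l : List S.ext.G) (x : S.G),
    D S (comp S i l) x → D S.ext l (mk S i x)
  | [], x, h => h.elim
  | a :: l, x, h => by
    have hE := lax_ext hS
    unfold comp at h
    by_cases h1 : sn a = i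
    · rw [if_pos h1] at h
      have ha : a = mk S i (fs a) := by rw [← h1]; rfl
      rcases h with ⟨-, h4⟩ | ⟨y, h3, h4⟩
      · rw [h4, ← ha]
        exact D_head hE a l
      · refine Or.inr ⟨mk S i y, D_comp hS i l y h3, ?_⟩
        rw [ha]
        exact rep_mk h4
    · rw [if_neg h1] at h
      exact D_tail hE a (D_comp hS i l x h)

theorem univ_of_comp (hS : LAx S) (i : Multiplicative (ZMod 2)) : ∀ (l : List S.ext.G),
    Isot S (comp S i l) → ∀ x, D S.ext l x
  | [], h, _ => h.elim
  | a :: l, h, x => by
    have hE := lax_ext hS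
    unfold comp at h
    by_cases h1 : sn a = i
    · rw [if_pos h1] at h
      rcases h with h | h
      · have h3 := D_comp hS i l _ h
        have h4 : mk S i (S.neg * fs a) = S.ext.neg * a := by
          refine ext_eq rfl ?_
          rw [sn_neg_mul, h1]
          rfl
        rw [h4] at h3
        exact D_of_neg hE h3 x
      · exact univ_cons hE a (univ_of_comp hS i l h) x
    · rw [if_neg h1] at h
      exact univ_cons hE a (univ_of_comp hS i l h) x

theorem U_ext (hS : LAx S) {n : ℕ} (h : U S n) : U S.ext (2 * n) := by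
  intro l hl x
  have h1 := length_comp l
  rcases lt_trichotomy (comp S 1 l).length n with h3 | h3 | h3
  · exact univ_of_comp hS tt l (isot_of_length hS h (by omega)) x
  · have h4 : (comp S tt l).length = n := by omega
    by_cases hx : sn x = 1
    · have h5 := D_comp hS 1 l (fs x) (h _ h3 _)
      rwa [← hx, mk_eta] at h5
    · have h5 := D_comp hS tt l (fs x) (h _ h4 _)
      rwa [← eq_tt hx, mk_eta] at h5
  · exact univ_of_comp hS 1 l (isot_of_length hS h (by omega)) x

theorem fs_one : fs (1 : S.ext.G) = 1 := rfl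

theorem sn_one : sn (1 : S.ext.G) = 1 := rfl

theorem D_map_tt (hS : LAx S) : ∀ l : List S.G, ¬ Isot S l → ∀ z, D S.ext (l.map (mk S tt)) z →
    sn z ≠ 1 ∧ D S l (fs z)
  | [], _, z, h => h.elim
  | b :: l, hl, z, h => by
    rw [List.map_cons] at h
    have hl1 : ¬ Isot S l := fun h1 => hl (Or.inr h1)
    rcases h with ⟨h1, h2⟩ | ⟨y, h1, h2⟩
    · rw [h2]
      exact ⟨tt_ne, D_head hS b l⟩
    · obtain ⟨h3, h4⟩ := D_map_tt hS l hl1 y h1
      have h5 : sn (S.ext.neg * (mk S tt b * y)) = 1 := by
        rw [sn_neg_mul, sn_mul]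
        exact C2_mul tt_ne h3
      have h2' : S.ext.Split _ _ := h2
      rw [ext_split_iff] at h2'
      rcases h2' with ⟨h6, h7, h8⟩ | h6 | h6 | ⟨h6, h7, h8⟩
      · refine ⟨?_, Or.inr ⟨fs y, h4, h8⟩⟩
        intro h9
        rw [sn_mul, h9, mul_one] at h7
        exact tt_ne h7
      · exfalso
        apply hl
        left
        have h9 := congrArg fs h6
        rw [fs_neg_mul, fs_mul, fs_one] at h9
        have h10 : fs y = S.neg * b := by
          have h11 : fs (mk S tt b) = b := rfl
          rw [h11] at h9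
          calc fs y = S.neg * b * (S.neg * (b * fs y)) := by
                rw [mul_mul_mul_comm, hS.sq, one_mul, mul_sq hS]
            _ = S.neg * b := by rw [h9, mul_one]
        rw [← h10]
        exact h4
      · have hE := lax_ext hS
        have h9 : z = mk S tt b := by
          calc z = mk S tt b * (mk S tt b * z) := (mul_sq hE _ _).symm
            _ = mk S tt b := by rw [h6, mul_one]
        rw [h9]
        exact ⟨tt_ne, D_head hS b l⟩
      · exact absurd h5 h6

theorem D_append (hS : LAx S) {L : List S.ext.G} {P : S.G → Prop}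
    (hL : ∀ z, D S.ext L z → sn z ≠ 1 ∧ P (fs z)) : ∀ l : List S.G, ¬ Isot S l →
    ∀ z, D S.ext (l.map (mk S 1) ++ L) z → (sn z = 1 ∧ D S l (fs z)) ∨ (sn z ≠ 1 ∧ P (fs z))
  | [], _, z, h => Or.inr (hL z h)
  | a :: l, hl, z, h => by
    rw [List.map_cons, List.cons_append] at h
    have hl1 : ¬ Isot S l := fun h1 => hl (Or.inr h1)
    have hE := lax_ext hS
    rcases h with ⟨h1, h2⟩ | ⟨y, h1, h2⟩
    · rw [h2]
      exact Or.inl ⟨rfl, D_head hS a l⟩
    · have h2' : S.ext.Split _ _ := h2
      rw [ext_split_iff] at h2'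
      have h5 : sn (S.ext.neg * (mk S 1 a * y)) = sn y := by
        rw [sn_neg_mul, sn_mul]
        exact one_mul _
      have hz : sn (mk S 1 a * z) = sn z := one_mul _
      have hcase3 : mk S 1 a * z = 1 → (sn z = 1 ∧ D S (a :: l) (fs z)) := by
        intro h6
        have h9 : z = mk S 1 a := by
          calc z = mk S 1 a * (mk S 1 a * z) := (mul_sq hE _ _).symm
            _ = mk S 1 a := by rw [h6, mul_one]
        rw [h9]
        exact ⟨rfl, D_head hS a l⟩
      rcases D_append hS hL l hl1 y h1 with ⟨h3, h4⟩ | ⟨h3, h4⟩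
      · rcases h2' with ⟨h6, h7, h8⟩ | h6 | h6 | ⟨h6, h7, h8⟩
        · rw [hz] at h7
          exact Or.inl ⟨h7, Or.inr ⟨fs y, h4, h8⟩⟩
        · exfalso
          apply hl
          left
          have h9 := congrArg fs h6
          rw [fs_neg_mul, fs_mul, fs_one] at h9
          have h10 : fs y = S.neg * a := by
            have h11 : fs (mk S 1 a) = a := rfl
            rw [h11] at h9
            calc fs y = S.neg * a * (S.neg * (a * fs y)) := by
                  rw [mul_mul_mul_comm, hS.sq, one_mul, mul_sq hS]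
              _ = S.neg * a := by rw [h9, mul_one]
          rw [← h10]
          exact h4
        · exact Or.inl (hcase3 h6)
        · rw [h5] at h6
          exact absurd h3 h6
      · rcases h2' with ⟨h6, h7, h8⟩ | h6 | h6 | ⟨h6, h7, h8⟩
        · rw [h5] at h6
          exact absurd h6 h3
        · have h9 := congrArg sn h6
          rw [h5, sn_one] at h9
          exact absurd h9 h3
        · exact Or.inl (hcase3 h6)
        · rw [hz] at h7
          right
          refine ⟨h7, ?_⟩
          have h9 : fs z = fs y := by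
            rw [fs_neg_mul, neg_sq hS, fs_mul, fs_mul] at h8
            exact mul_left_cancel h8
          rw [h9]
          exact h4

theorem not_U_ext (hS : LAx S) {n : ℕ} (h : ¬ U S n) : ¬ U S.ext (2 * n + 1) := by
  intro hU
  apply h
  intro l hl x
  by_contra hx
  have h1 : ¬ Isot S l := fun h1 => hx (univ_of_isot hS l h1 x)
  have h2 : ¬ Isot S ((S.neg * x) :: l) := by
    rintro (h3 | h3)
    · rw [neg_sq hS] at h3
      exact hx h3
    · exact h1 h3
  have h3 := D_append hS (P := D S l) (D_map_tt hS l h1) _ h2 (mk S tt x) (hU _ (by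
    rw [List.length_append, List.length_map, List.length_map, List.length_cons, hl]
    omega) _)
  rcases h3 with ⟨h4, -⟩ | ⟨-, h4⟩
  · exact tt_ne h4
  · exact hx h4

theorem good_ext (hS : Good S) : Good S.ext := by
  refine ⟨lax_ext hS.1, ?_⟩
  rcases hS.2 with ⟨k, h1, h2⟩ | h1
  · refine Or.inl ⟨k + 1, ?_, ?_⟩
    · rw [pow_succ, mul_comm]
      exact U_ext hS.1 h1
    · intro m hm h3
      have hpos : 0 < 2 ^ k := by positivity
      have h4 := not_U_ext hS.1 (h2 (2 ^ k - 1) (by omega))
      apply h4
      refine U_mono (lax_ext hS.1) ?_ h3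
      rw [pow_succ] at hm
      omega
  · refine Or.inr fun n h3 => ?_
    exact not_U_ext hS.1 (h1 n) (U_mono (lax_ext hS.1) (by omega) h3)

end Pool.Agent.UInv
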