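import Pool.Agent.UInv.Gen
import Pool.Agent.WittR.Chain

/-!
# Quadratic forms over a field and forms over its quaternionic structure
-/

namespace Pool.Agent.UInv

open Pool.Agent.Hhelper2 Pool.Agent.Hhelper2.FieldAx Pool.Agent.WittR

universe u

variable {F : Type u} [Field F]

theorem rep_iff (h2 : (2 : F) ≠ 0) (a b x : Fˣ) :
    Rep (QStr.ofField F) (sqClass a) (sqClass b) (sqClass x) ↔
      ∃ X Y : F, (x : F) = a * X ^ 2 + b * Y ^ 2 := by
  show FieldSplit F (sqClass (-1 * (a * b))) (sqClass (a * x)) ↔ _
  rw [split_mk, solv_iff h2 (Units.ne_zero _) (Units.ne_zero _)]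
  have ha : (a : F) ≠ 0 := a.ne_zero
  constructor
  · rintro ⟨p, q, h⟩
    push_cast at h
    refine ⟨p / a, q, ?_⟩
    field_simp
    linear_combination h
  · rintro ⟨X, Y, h⟩
    refine ⟨a * X, Y, ?_⟩
    push_cast
    rw [h]
    ring

theorem D_iff (h2 : (2 : F) ≠ 0) : ∀ (l : List Fˣ) (x : Fˣ),
    D (QStr.ofField F) (l.map (fun a => sqClass a)) (sqClass x) ↔ ∃ v, diag l v = (x : F)
  | [], x => by
    constructor
    · intro h
      exact h.elim
    · rintro ⟨v, hv⟩
      rw [diag_nil_apply] at hv
      exact absurd hv.symm x.ne_zero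
  | a :: l, x => by
    have hS := lax_field F h2
    rw [List.map_cons]
    constructor
    · rintro (⟨h1, h3⟩ | ⟨y, h1, h3⟩)
      · obtain ⟨s, hs⟩ := sqClass_eq.1 (show sqClass a = sqClass x from h3.symm)
        refine ⟨Fin.cons (α := fun _ : Fin (l.length + 1) => F) (s : F) (fun _ => 0), ?_⟩
        rw [diag_cons_apply]
        show (a : F) * (s : F) ^ 2 + diag l (fun _ => 0) = x
        have h0 : diag l (fun _ => 0) = 0 := QuadraticMap.map_zero _
        rw [h0, hs]
        push_cast
        ring
      · obtain ⟨y, rfl⟩ := QuotientGroup.mk_surjective y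
        obtain ⟨v, hv⟩ := (D_iff h2 l y).1 h1
        obtain ⟨X, Y, hXY⟩ := (rep_iff h2 a y x).1 h3
        refine ⟨Fin.cons (α := fun _ : Fin (l.length + 1) => F) X (Y • v), ?_⟩
        rw [diag_cons_apply]
        show (a : F) * X ^ 2 + diag l (Y • v) = x
        rw [QuadraticMap.map_smul, hv, hXY, smul_eq_mul]
        ring
    · rintro ⟨v, hv⟩
      rw [diag_cons_apply] at hv
      by_cases hc : diag l (fun i : Fin l.length => v i.succ) = 0
      · rw [hc, add_zero] at hv
        have hx : v 0 ≠ 0 := by
          intro h0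
          rw [h0] at hv
          apply x.ne_zero
          rw [← hv]
          ring
        have hxs : (sqClass x : SqClass F) = sqClass a := by
          refine (sqClass_eq.2 ⟨Units.mk0 (v 0) hx, Units.ext ?_⟩).symm
          push_cast
          exact hv.symm
        rw [hxs]
        exact D_head hS _ _
      · refine Or.inr ⟨sqClass (Units.mk0 _ hc), (D_iff h2 l _).2 ⟨_, rfl⟩, ?_⟩
        refine (rep_iff h2 a _ x).2 ⟨v 0, 1, ?_⟩
        rw [Units.val_mk0, ← hv]
        ring

/-- Isotropic forms are universal. -/
theorem univ_of_isotropic (h2 : (2 : F) ≠ 0) : ∀ (l : List Fˣ) (v : Fin l.length → F), v ≠ 0 →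
    diag l v = 0 → ∀ x, D (QStr.ofField F) (l.map (fun a => sqClass a)) x
  | [], v, hv, _, _ => absurd (funext fun i => i.elim0) hv
  | a :: l, v, hv, h, x => by
    have hS := lax_field F h2
    rw [List.map_cons]
    rw [diag_cons_apply] at h
    by_cases hc : diag l (fun i : Fin l.length => v i.succ) = 0
    · rw [hc, add_zero] at h
      have h0 : v 0 = 0 := by
        rcases mul_eq_zero.1 h with h1 | h1
        · exact absurd h1 a.ne_zero
        · exact (pow_eq_zero_iff two_ne_zero).1 h1
      refine univ_cons hS _ (univ_of_isotropic h2 l _ ?_ hc) x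
      intro h1
      apply hv
      funext i
      refine Fin.cases h0 (fun j => ?_) i
      exact congrFun h1 j
    · have h0 : v 0 ≠ 0 := by
        intro h0
        apply hc
        rw [h0] at h
        rw [← h]
        ring
      refine D_of_neg hS ?_ x
      have h3 : D (QStr.ofField F) (l.map (fun a => sqClass a)) (sqClass (Units.mk0 _ hc)) :=
        (D_iff h2 l _).2 ⟨_, rfl⟩
      have h4 : (sqClass (Units.mk0 _ hc) : SqClass F) = sqClass (-1 * a) := by
        refine (sqClass_eq.2 ⟨Units.mk0 (v 0) h0, Units.ext ?_⟩).symm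
        push_cast
        rw [Units.val_mk0, Units.val_mk0]
        linear_combination h
      rw [h4] at h3
      exact h3

/-- If some form of dimension `n` is not universal, then there is an anisotropic form of dimension
`n + 1`. -/
theorem exists_aniso (h2 : (2 : F) ≠ 0) {n : ℕ} (h : ¬ U (QStr.ofField F) n) :
    ∃ Q : QuadraticForm F (Fin (n + 1) → F), Q.Anisotropic := by
  unfold U at h
  push Not at h
  obtain ⟨l, hl, x, hx⟩ := h
  obtain ⟨l, rfl⟩ : ∃ m : List Fˣ, m.map (fun a => sqClass a) = l := by
    refine ⟨l.map (fun a => Quotient.out (a : SqClass F)), ?_⟩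
    rw [List.map_map]
    conv_rhs => rw [← List.map_id l]
    apply List.map_congr_left
    intro a _
    exact QuotientGroup.out_eq' a
  obtain ⟨x, rfl⟩ := QuotientGroup.mk_surjective x
  have hl : l.length = n := (List.length_map _).symm.trans hl
  subst hl
  refine ⟨diag ((-x) :: l), ?_⟩
  intro v hv
  rw [diag_cons_apply] at hv
  by_cases h0 : v 0 = 0
  · have h3 : diag l (fun i : Fin l.length => v i.succ) = 0 := by
      rw [h0] at hv
      rw [← hv]
      ring
    have h4 : (fun i : Fin l.length => v i.succ) = 0 := by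
      by_contra h4
      exact hx (univ_of_isotropic h2 l _ h4 h3 _)
    funext i
    refine Fin.cases h0 (fun j => ?_) i
    exact congrFun h4 j
  · exfalso
    apply hx
    have h3 : diag l (fun i : Fin l.length => v i.succ) =
        ((x * (Units.mk0 (v 0) h0) ^ 2 : Fˣ) : F) := by
      push_cast
      rw [Units.val_mk0]
      rw [Units.val_neg] at hv
      linear_combination hv
    have h4 := (D_iff h2 l _).2 ⟨_, h3⟩
    have h5 : (sqClass (x * (Units.mk0 (v 0) h0) ^ 2) : SqClass F) = sqClass x :=
      (sqClass_eq.2 ⟨_, rfl⟩).symm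
    rw [h5] at h4
    exact h4

/-- If all forms of dimension `n` are universal, then anisotropic forms have dimension at most
`n`. -/
theorem le_of_aniso (h2 : (2 : F) ≠ 0) {n : ℕ} (h : U (QStr.ofField F) n) {m : ℕ}
    (Q : QuadraticForm F (Fin m → F)) (hQ : Q.Anisotropic) : m ≤ n := by
  by_contra hmn
  push Not at hmn
  have inv : Invertible (2 : F) := invertibleOfNonzero h2
  have hS := lax_field F h2
  have hsep := QuadraticMap.separatingLeft_of_anisotropic Q hQ
  obtain ⟨w, hw⟩ := QuadraticForm.equivalent_weightedSumSquares_units_of_nondegenerate' Q hsep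
  have hd : Module.finrank F (Fin m → F) = m := Module.finrank_fin_fun F
  -- the list of the weights
  obtain ⟨l, hl, ⟨e⟩⟩ : ∃ l : List Fˣ, l.length = m ∧ Q.Equivalent (diag l) := by
    refine ⟨List.ofFn w, by rw [List.length_ofFn, hd], ?_⟩
    refine hw.trans ?_
    have hk : ∀ (k : ℕ) (w : Fin k → Fˣ) (l : List Fˣ) (hl : l.length = k)
        (hw : ∀ i : Fin l.length, l.get i = w (Fin.cast hl i)),
        (QuadraticMap.weightedSumSquares F w).Equivalent (diag l) := by
      intro k w l hl hw
      subst hl
      have h1 : w = l.get := by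
        funext i
        exact (hw i).symm
      subst h1
      exact QuadraticMap.Equivalent.refl _
    exact hk _ w _ List.length_ofFn (fun i => by simp; rfl)
  match l, hl with
  | [], hl =>
    simp at hl
    omega
  | a :: l, hl =>
    have hln : n ≤ l.length := by
      rw [List.length_cons] at hl
      omega
    have h1 : D (QStr.ofField F) (l.map (fun a => sqClass a)) (sqClass (-a)) :=
      U_mono hS hln h _ (List.length_map _) _
    obtain ⟨v, hv⟩ := (D_iff h2 l (-a)).1 h1
    let z : Fin (a :: l).length → F := Fin.cons (α := fun _ : Fin (l.length + 1) => F) (1 : F) v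
    have hz : diag (a :: l) z = 0 := by
      rw [diag_cons_apply]
      show (a : F) * (1 : F) ^ 2 + diag l v = 0
      rw [hv, Units.val_neg]
      ring
    have h3 : Q (e.symm z) = 0 := by
      have h4 := e.map_app (e.symm z)
      rw [← h4]
      have h5 : e (e.symm z) = z := e.toLinearEquiv.apply_symm_apply z
      rw [h5]
      exact hz
    have h4 := hQ _ h3
    have h5 : z = 0 := by
      have h6 := congrArg e h4
      have h7 : e (e.symm z) = z := e.toLinearEquiv.apply_symm_apply z
      rw [h7] at h6
      rw [h6]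
      exact map_zero e
    have h6 : z 0 = 0 := congrFun h5 0
    exact one_ne_zero h6

end Pool.Agent.UInv
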