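import Pool.Agent.UInv.Ext

/-!
# The u-invariant of structures of local type
-/

namespace Pool.Agent.UInv

open Pool.Agent.Hhelper2 Pool.Agent.WittR

universe u v w

variable {S : QStr.{u}}

/-! ### Totally split structures -/

theorem D_two_of_split (h : ∀ a b, S.Split a b) (a b x : S.G) : D S [a, b] x :=
  Or.inr ⟨b, Or.inl ⟨rfl, rfl⟩, h _ _⟩

theorem D_one {a x : S.G} (h : D S [a] x) : x = a := by
  rcases h with ⟨-, h⟩ | ⟨y, h, -⟩
  · exact h
  · exact h.elim

theorem isU_one_of_trivial (h : ∀ a : S.G, a = 1) : IsU S 1 := by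
  constructor
  · intro l hl x
    match l, hl with
    | [a], _ => exact Or.inl ⟨rfl, by rw [h x, h a]⟩
  · intro m hm
    rw [Nat.lt_one_iff.1 hm]
    exact not_U_zero

theorem not_U_one {t : S.G} (h : t ≠ 1) : ¬ U S 1 := fun hU => h (D_one (hU [1] rfl t))

theorem good_split (hsq : ∀ a : S.G, a * a = 1) (h : ∀ a b, S.Split a b) : Good S := by
  refine ⟨⟨hsq, fun a b _ => h b a, fun a => h _ _, fun a => h _ _⟩, Or.inl ?_⟩
  by_cases ht : ∀ a : S.G, a = 1
  · exact ⟨0, isU_one_of_trivial ht⟩
  · push Not at ht
    obtain ⟨t, ht⟩ := ht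
    refine ⟨1, ?_, ?_⟩
    · intro l hl x
      match l, hl with
      | [a, b], _ => exact D_two_of_split h a b x
    · intro m hm
      have : m = 0 ∨ m = 1 := by omega
      rcases this with rfl | rfl
      · exact not_U_zero
      · exact not_U_one ht

/-! ### Local structures -/

theorem lax_local (h : S.IsLocal) : LAx S := ⟨h.sq, h.symm, h.one, h.neg⟩

/-- The characters `Split u` separate the elements. -/
theorem eq_of_split_iff (h : S.IsLocal) {a b : S.G} (hab : ∀ w, S.Split a w ↔ S.Split b w) :
    a = b := by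
  by_contra hne
  have h1 : a * b ≠ 1 := by
    intro h1
    apply hne
    calc a = a * (b * b) := by rw [h.sq, mul_one]
      _ = b := by rw [← mul_assoc, h1, one_mul]
  obtain ⟨w, hw⟩ := h.nondeg _ h1
  apply hw
  apply h.symm
  by_cases h2 : S.Split a w
  · exact h.mul _ _ _ (h.symm _ _ h2) (h.symm _ _ ((hab w).1 h2))
  · exact h.index _ _ _ (fun h3 => h2 (h.symm _ _ h3))
      (fun h3 => h2 ((hab w).2 (h.symm _ _ h3)))

/-- A ternary form represents everything except possibly one class. -/
theorem D_three (h : S.IsLocal) (a b c x : S.G) (hx : x ≠ S.neg * (a * (b * c))) :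
    D S [a, b, c] x := by
  have hS := lax_local h
  -- the binary form `⟨b, c⟩` represents `y` iff `Split (-bc) (by)`
  have h2 : ∀ y, S.Split (S.neg * (b * c)) (b * y) → D S [b, c] y :=
    fun y hy => Or.inr ⟨c, Or.inl ⟨rfl, rfl⟩, hy⟩
  suffices hh : ∃ y, S.Split (S.neg * (b * c)) (b * y) ∧ S.Split (a * x) (S.neg * (a * y)) by
    obtain ⟨y, h3, h4⟩ := hh
    exact Or.inr ⟨y, h2 y h3, h.symm _ _ h4⟩
  by_contra hcon
  push Not at hcon
  -- the two subgroups are equal
  have hxa : a * x ≠ S.neg * (b * c) := by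
    intro h5
    apply hx
    calc x = a * (a * x) := (mul_sq hS _ _).symm
      _ = S.neg * (a * (b * c)) := by rw [h5, mul_left_comm]
  apply hxa
  -- `y = b g` with `g` in `N(-bc)`
  have h6 : ∀ g, S.Split (S.neg * (b * c)) g → ¬ S.Split (a * x) (S.neg * (a * (b * g))) := by
    intro g hg
    apply hcon
    rw [mul_sq hS]
    exact hg
  have h7 : ¬ S.Split (a * x) (S.neg * (a * b)) := by
    have h8 := h6 1 (h.one _)
    rwa [mul_one] at h8
  apply eq_of_split_iff h
  intro w
  by_cases hw : S.Split (S.neg * (b * c)) w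
  · refine ⟨fun _ => hw, fun _ => ?_⟩
    have h8 := h.index _ _ _ h7 (h6 w hw)
    have h9 : S.neg * (a * b) * (S.neg * (a * (b * w))) = w := by
      rw [mul_mul_mul_comm, h.sq, one_mul, ← mul_assoc a b w, mul_sq hS]
    rwa [h9] at h8
  · refine ⟨fun h8 => ?_, fun h8 => absurd h8 hw⟩
    -- `w` in `N(ax)`, not in `N(-bc)`: then `N(-bc)` is contained in `N(ax)`, and the index
    -- gives a contradiction
    exfalso
    -- every `g` not in `N(ax)` is in `N(-bc)`? use the element `-ab w`
    have h9 : ¬ S.Split (a * x) (S.neg * (a * b) * w) := by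
      intro h10
      apply h7
      have h11 := h.mul _ _ _ h10 h8
      rwa [mul_assoc, h.sq, mul_one] at h11
    by_cases h12 : S.Split (S.neg * (b * c)) (S.neg * (a * b))
    · have h13 := h6 _ h12
      apply h13
      have h14 : S.neg * (a * (b * (S.neg * (a * b)))) = 1 := by
        rw [← mul_assoc a b, mul_left_comm (a * b) S.neg, neg_sq hS, h.sq]
      rw [h14]
      exact h.one _
    · have h13 := h.index _ _ _ h12 hw
      have h14 := h6 _ h13
      apply h14
      have h15 : S.neg * (a * (b * (S.neg * (a * b) * w))) = w := by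
        rw [← mul_assoc a b, mul_assoc S.neg, mul_left_comm (a * b) S.neg, neg_sq hS,
          mul_sq hS]
      rw [h15]
      exact h8

theorem not_U_three (h : S.IsLocal) {t : S.G} (ht : t ≠ 1) : ¬ U S 3 := by
  intro hU
  have hS := lax_local h
  obtain ⟨g, hg⟩ := h.nondeg t ht
  -- the form `⟨- g, 1, - t⟩` does not represent `- g t`
  have h1 := hU [S.neg * g, 1, S.neg * t] rfl (S.neg * (g * t))
  rcases h1 with ⟨h1, -⟩ | ⟨y, h1, h2⟩
  · exact absurd h1 (by simp)
  · have h3 : S.Split t y := by
      rcases h1 with ⟨h1, -⟩ | ⟨z, h1, h3⟩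
      · exact absurd h1 (by simp)
      · rw [D_one h1] at h3
        have h4 : S.Split (S.neg * (1 * (S.neg * t))) (1 * y) := h3
        rwa [one_mul, one_mul, neg_sq hS] at h4
    have h4 : S.Split (S.neg * (S.neg * g * y)) (S.neg * g * (S.neg * (g * t))) := h2
    have h5 : S.neg * (S.neg * g * y) = g * y := by rw [mul_assoc, neg_sq hS]
    have h6 : S.neg * g * (S.neg * (g * t)) = t := by
      rw [mul_mul_mul_comm, h.sq, one_mul, mul_sq hS]
    rw [h5, h6] at h4
    apply hg
    have h7 := h.mul _ _ _ (h.symm _ _ h4) h3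
    rwa [mul_assoc, h.sq, mul_one] at h7

theorem U_four (h : S.IsLocal) {s t : S.G} (hs : s ≠ 1) (ht : t ≠ 1) (hst : s ≠ t) : U S 4 := by
  have hS := lax_local h
  intro l hl x
  match l, hl with
  | [a, b, c, d], _ =>
    suffices hh : ∃ y, y ≠ S.neg * (b * (c * d)) ∧ S.Split (S.neg * (a * y)) (a * x) by
      obtain ⟨y, h1, h2⟩ := hh
      exact Or.inr ⟨y, D_three h b c d y h1, h2⟩
    by_cases h1 : S.neg * a = S.neg * (b * (c * d))
    · -- `y = - a m` with `m ≠ 1` and `Split m (a x)`
      obtain ⟨m, hm, hm2⟩ : ∃ m, m ≠ 1 ∧ S.Split (a * x) m := by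
        by_cases h2 : S.Split (a * x) s
        · exact ⟨s, hs, h2⟩
        · by_cases h3 : S.Split (a * x) t
          · exact ⟨t, ht, h3⟩
          · refine ⟨s * t, ?_, h.index _ _ _ h2 h3⟩
            intro h4
            apply hst
            calc s = s * (t * t) := by rw [h.sq, mul_one]
              _ = t := by rw [← mul_assoc, h4, one_mul]
      refine ⟨S.neg * a * m, ?_, ?_⟩
      · rw [← h1]
        intro h5
        apply hm
        exact mul_left_cancel (h5.trans (mul_one _).symm)
      · apply h.symm
        have h6 : S.neg * (a * (S.neg * a * m)) = m := by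
          rw [mul_assoc S.neg a m, mul_left_comm a S.neg, neg_sq hS, mul_sq hS]
        rw [h6]
        exact hm2
    · exact ⟨S.neg * a, h1, rep_neg hS a x⟩

theorem good_local (h : S.IsLocal) : Good S := by
  have hS := lax_local h
  refine ⟨hS, ?_⟩
  by_cases ht : ∀ a : S.G, a = 1
  · exact Or.inl ⟨0, isU_one_of_trivial ht⟩
  push Not at ht
  obtain ⟨t, ht⟩ := ht
  by_cases hs : ∀ s : S.G, s = 1 ∨ s = t
  · -- the group has two elements
    right
    obtain ⟨g, hg⟩ := h.nondeg t ht
    have hgt : g = t := by
      rcases hs g with h1 | h1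
      · exact absurd (by rw [h1]; exact h.one t) hg
      · exact h1
    subst hgt
    have hneg : S.neg = g := by
      rcases hs S.neg with h1 | h1
      · exfalso
        apply hg
        have h3 := h.neg g
        rwa [h1, one_mul] at h3
      · exact h1
    intro n hU
    have key : ∀ (n : ℕ) (x : S.G), D S (List.replicate n (1 : S.G)) x → x = 1 := by
      intro n
      induction n with
      | zero => intro x hx; exact hx.elim
      | succ n ih =>
        intro x hx
        rw [List.replicate_succ] at hx
        rcases hx with ⟨-, h1⟩ | ⟨y, h1, h3⟩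
        · exact h1
        · have h4 : S.Split (S.neg * (1 * y)) (1 * x) := h3
          rw [ih y h1, one_mul, one_mul, mul_one, hneg] at h4
          rcases hs x with h5 | h5
          · exact h5
          · rw [h5] at h4
            exact absurd h4 hg
    exact ht (key n g (hU _ List.length_replicate g))
  · push Not at hs
    obtain ⟨s, hs1, hst⟩ := hs
    refine Or.inl ⟨2, U_four h hs1 ht hst, ?_⟩
    intro m hm h3
    exact not_U_three h ht (U_mono hS (by omega) h3)

end Pool.Agent.UInv
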