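import Pool.Agent.WETC.Final
import Pool.Agent.UInv.Loc

/-!
# Induction over the structures of elementary type
-/

namespace Pool.Agent.UInv

open Pool.Agent.WETC
open Pool.Agent.Hhelper2 Pool.Agent.Hhelper2.QuadExt Pool.Agent.Hhelper2.FieldAx
open Pool.Agent.Hhelper2.Tower Pool.Agent.KRad Pool.Agent.GoReal
open Additive Module Pool.Agent.Hhelper2.QStr

universe u

/-- Finite products. -/
theorem good_pi : ∀ (n : ℕ) (S : Fin n → QStr.{u}), (∀ i, Good (S i)) → Good (QStr.pi S)
  | 0, S, _ => good_split (fun a => by
      funext i
      exact i.elim0) (fun _ _ i => i.elim0)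
  | n + 1, S, h => by
    refine good_iso (T := (S 0).prod (QStr.pi (fun i : Fin n => S i.succ))) ?_
      (good_prod (h 0) (good_pi n _ (fun i => h i.succ)))
    exact
      { e :=
          { toFun := fun x => (x 0, fun i => x i.succ)
            invFun := fun y => Fin.cons y.1 y.2
            left_inv := fun x => by
              funext i
              refine Fin.cases ?_ (fun j => ?_) i
              · rfl
              · rfl
            right_inv := fun y => rfl
            map_mul' := fun x y => rfl }
        map_neg := rfl
        map_split := fun x y => by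
          constructor
          · intro h
            exact ⟨h 0, fun i => h i.succ⟩
          · rintro ⟨h0, h1⟩ i
            refine Fin.cases h0 (fun j => h1 j) i }

/-- The u-invariant of the quaternionic structure of a field with finitely many square classes is a
power of two or infinite. -/
theorem good_field : ∀ (n : ℕ) (F : Type u) [Field F],
    (2 : F) ≠ 0 → Finite (SqClass F) → Nat.card (SqClass F) = n → Good (QStr.ofField F) := by
  intro n
  induction n using Nat.strong_induction_on with
  | _ n ih =>
  intro F _ h2 hf hcard
  obtain ⟨m, R, S, ⟨f⟩, hR, hS⟩ := blocks_prod F h2 hf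
  obtain ⟨fe⟩ : Nonempty (SqClass F ≃* R.G × ∀ i, (S i).G) := ⟨f.e⟩
  have hfinG' : Finite (R.G × ∀ i, (S i).G) := Finite.of_equiv _ fe.toEquiv
  have hRfin : Finite R.G := Finite.of_surjective (fun x : R.G × ∀ i, (S i).G => x.1)
    (fun r => ⟨(r, fun _ => 1), rfl⟩)
  have hRsq : ∀ a : R.G, a * a = 1 := by
    intro a
    have h1 : fe.symm (a, 1) * fe.symm (a, 1) = 1 := ofField_sq F _
    rw [← map_mul] at h1
    have h3 := congrArg fe h1
    rw [MulEquiv.apply_symm_apply, map_one] at h3
    exact congrArg Prod.fst h3
  have hRel : Good R := good_split hRsq hR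
  have hSel : ∀ i, Good (S i) := by
    intro i
    have g := f.trans (isoPi R S i)
    obtain ⟨K, _, h2K, ⟨k⟩⟩ := realise_block h2 hf g (hS i).2
    obtain ⟨ke, hke⟩ : ∃ ke : (S i).G ≃* SqClass K,
      ∀ a b, (S i).Split a b ↔ FieldSplit K (ke a) (ke b) := ⟨k.e, k.map_split⟩
    -- finiteness
    have hSfin : Finite (S i).G :=
      Finite.of_surjective (fun x : R.G × ∀ i, (S i).G => x.2 i) (fun s => by
        classical
        exact ⟨(1, Pi.mulSingle i s), by simp⟩)
    have hKfin : Finite (SqClass K) := Finite.of_equiv _ ke.toEquiv
    have hSn : Nat.card (S i).G ≤ n := by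
      rw [← hcard]
      have h1 : Function.Surjective (fun x : SqClass F => (fe x).2 i) := by
        intro s
        refine ⟨fe.symm (1, Pi.mulSingle i s), ?_⟩
        show (fe (fe.symm (1, Pi.mulSingle i s))).2 i = s
        rw [MulEquiv.apply_symm_apply]
        simp
      exact Nat.card_le_card_of_surjective _ h1
    have hKn : Nat.card (SqClass K) ≤ n := by
      rw [← Nat.card_congr ke.toEquiv]
      exact hSn
    -- the field is prime
    have hconn : Conn K := by
      intro x y hxy
      rw [← card_iff h2K] at hxy
      have hn : ∀ a : (S i).G, nrm (S i) a = dg K (ofMul (ke a)) := by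
        intro a
        apply Nat.card_congr
        exact ke.toEquiv.subtypeEquiv (fun b => hke a b)
      have h3 := (hS i).2 (ke.symm (toMul x)) (ke.symm (toMul y))
      rw [hn, hn, hn, map_mul, MulEquiv.apply_symm_apply, MulEquiv.apply_symm_apply,
        Nat.card_congr ke.toEquiv] at h3
      rcases h3 hxy with h | h
      · left
        have h5 := congrArg ke h
        rw [MulEquiv.apply_symm_apply, map_one] at h5
        exact h5
      · right
        have h5 := congrArg ke h
        rw [MulEquiv.apply_symm_apply, map_one] at h5
        exact h5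
    have hle := locExt_of_conn exactInput K h2K hKfin hconn
    rw [locExt_iff h2K] at hle
    rcases hle with hl | ⟨T, ⟨t⟩⟩
    · exact good_iso k (good_local hl)
    · obtain ⟨K', _, T', h2K', ⟨k'⟩, ⟨t'⟩, ⟨eqv⟩⟩ := realise_ext h2K t
      have hTT : Nat.card (SqClass K) = Nat.card T'.G * 2 := by
        have h1 : Nat.card (SqClass K) = Nat.card (T'.G × Multiplicative (ZMod 2)) :=
          Nat.card_congr t'.e.toEquiv
        rw [h1, Nat.card_prod]
        congr 1
        simp
      have hpos : 0 < Nat.card (SqClass K) := Nat.card_pos
      have hT'fin : Finite T'.G := Nat.finite_of_card_ne_zero (by omega)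
      have hK'fin : Finite (SqClass K') := Finite.of_equiv _ k'.e.toEquiv
      have hlt : Nat.card (SqClass K') < n := by
        have h1 : Nat.card T'.G = Nat.card (SqClass K') := Nat.card_congr k'.e.toEquiv
        have h3 : 0 < Nat.card T'.G := Nat.card_pos
        omega
      have h5 := ih _ hlt K' h2K' hK'fin rfl
      have h6 : Good T' := good_iso k' h5
      exact good_iso k (good_iso t' (good_ext h6))
  exact good_iso f (good_prod hRel (good_pi m S hSel))

end Pool.Agent.UInv
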